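import Mathlib
import Pool.Agent.H6.W.WE
import Pool.Agent.H61.W.JFinal
import Pool.Agent.H20.W.StSAll
import Pool.Agent.H29.W.InPA
import Pool.Agent.H45.W.InW
import Pool.Agent.H70.W.Cor5
import Pool.Agent.H97.W.EndsH
import Pool.Agent.H37.W.RotTop
import Pool.Agent.H5.C3.Main

set_option autoImplicit false

/-! # Route W: the top through the glued polygons

Proved: the S-property `stS` (W-B), the junction bound `jb_W` (W-C), W-E, `StHol` (29, 45), `StSide` (97). -/

namespace Pool.Agent.H10.W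

open Pool.Agent.H6.W (JB)
open Pool.Agent.H74.W (StHol StChd StSide StCor stShapeGR_of)
open Pool.Agent.H70.SC (FarEx stCor_of)
open Pool.Agent.H5.C3 (StShapeG q1_of_shapeG)

/-- **The junction bound.** -/
theorem jb_W : ∃ c : ℝ, 0 < c ∧ JB c := Pool.Agent.H61.W.jb Pool.Agent.H20.W.stS

/-- analyticity away from the chords -/
theorem stHol_W : StHol :=
  Pool.Agent.H29.W.stHol_of Pool.Agent.H20.W.stS Pool.Agent.H45.W.inWA Pool.Agent.H29.W.inPA

/-- **The pinned polygons.** `pE` : 72; `p2` : 82, 19, 78, 13, 2, 35, 51, 22. -/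
theorem shapeG_of_leaves (pE : FarEx) (p2 : StChd) : StShapeG := by
  obtain ⟨c, hc, hJB⟩ := jb_W
  exact Pool.Agent.H37.W.stShapeG_of_right
    (stShapeGR_of (Pool.Agent.H6.W.stNP hc hJB) stHol_W p2 Pool.Agent.H97.W.stSide_proof
      (stCor_of pE))

/-- **Q1 from the leaves of the polygons.** -/
theorem q1_of_leaves (pE : FarEx) (p2 : StChd) : Pool.Agent.H81.Q1.Q1 :=
  q1_of_shapeG (shapeG_of_leaves pE p2)

end Pool.Agent.H10.W
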