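import Mathlib
import Pool.Agent.H6.W.WE
import Pool.Agent.H61.W.JFinal
import Pool.Agent.H20.W.StSAll
import Pool.Agent.H26.W.Glue
import Pool.Agent.H26.W.Room
import Pool.Agent.H53.W.Top

set_option autoImplicit false

/-! # Route W: the top through the translation invariance (W-G), in the form of the final statement

`full_of_out` : the final statement (`Full` = Q1 and convergence to SLE(6)) from the canonical outsides. -/

namespace Pool.Agent.H10.W

open Pool.Agent.H6.W (JB)

/-- translation invariance from the canonical outsides -/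
theorem tiDob_of_out (hO : Pool.Agent.H26.W.ExOut) : Pool.Agent.H66.W.TIDob := by
  obtain ⟨c, hc, hJB⟩ : ∃ c : ℝ, 0 < c ∧ JB c := Pool.Agent.H61.W.jb Pool.Agent.H20.W.stS
  obtain ⟨C0, C, c', hc', hRS⟩ := Pool.Agent.H6.W.e10
  exact Pool.Agent.H26.W.tiDob_of_room (Pool.Agent.H26.W.roomTI_of hO)
    (Pool.Agent.H6.W.locB_of_JB hc hJB) hRS hc'

/-- **The final statement from the canonical outsides.** -/
theorem full_of_out (hO : Pool.Agent.H26.W.ExOut) : Pool.Agent.H53.ZF.Full :=
  Pool.Agent.H53.W.full_of_tiDob (tiDob_of_out hO)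

end Pool.Agent.H10.W
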