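import Mathlib
import Pool.Agent.H13.W.Top
import Pool.Agent.H98.W.EndTop
import Pool.Agent.H58.W.NearS

set_option autoImplicit false
open Finset Filter Topology

/-! # Route W, skeleton, part 1: the chords of a generic shape; `StNP` from `RS` and `LocB`

The chord set is `chG` of `H13/W/Top.lean`: `(X, Y) ∈ chG Q` iff the side between the cells `(X, Y-1)`
and `(X, Y)` lies on the horizontal segment inside `Q` which goes to the left from a reflex corner on a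
right side. Here: its properties (`chG_in`, `chG_left`, `chG_left_gen`, `chG_right`, `chG_corner`,
`chG_ChG`), a bound `gb`, and `stNP_of`. -/

namespace Pool.Agent.H10.W

open Pool.Agent.Q1.M4 (Cell)
open Pool.Agent.H21.FM (Shape)
open Pool.Agent.H13.W
open Pool.Agent.H58.W (EndSt NearSt LocB nearSt_of_locB)
open Pool.Agent.H98.W (ChG endSt)
open Pool.Agent.H6.W (RS)
open Pool.Agent.H5.C3 (Gen)

/-- `b` is the abscissa of a reflex corner on a right side at the height `y`, seen from the cells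
`x ≤ · < b` of the line `y` -/
def RSeg (Q : Finset Cell) (x y b : ℤ) : Prop :=
  x < b ∧ (∀ u, x ≤ u → u < b → (u, y) ∈ Q ∧ (u, y - 1) ∈ Q) ∧ ¬ ((b, y) ∈ Q ↔ (b, y - 1) ∈ Q)

/-- a strict bound of the abscissas -/
def gb (Q : Finset Cell) : ℤ := 1 + ∑ c ∈ Q, |c.1|

section

variable {Q : Finset Cell} {x y b : ℤ}

lemma RSeg.here (h : RSeg Q x y b) : (x, y) ∈ Q ∧ (x, y - 1) ∈ Q := h.2.1 x le_rfl h.1

lemma RSeg.mono (h : RSeg Q x y b) {u : ℤ} (h1 : x ≤ u) (h2 : u < b) : RSeg Q u y b :=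
  ⟨h2, fun v h3 h4 => h.2.1 v (h1.trans h3) h4, h.2.2⟩

lemma RSeg.ext (h : RSeg Q x y b) (h1 : (x - 1, y) ∈ Q) (h2 : (x - 1, y - 1) ∈ Q) :
    RSeg Q (x - 1) y b := by
  refine ⟨by have := h.1; omega, fun u h3 h4 => ?_, h.2.2⟩
  rcases eq_or_lt_of_le h3 with h5 | h5
  · rw [← h5]; exact ⟨h1, h2⟩
  · exact h.2.1 u (by omega) h4

/-- the reflex corner is unique -/
lemma RSeg.uniq {b' : ℤ} (h : RSeg Q x y b) (h' : RSeg Q x y b') : b = b' := by
  rcases lt_trichotomy b b' with h1 | h1 | h1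
  · have := h'.2.1 b h.1.le h1
    exact absurd ⟨fun _ => this.2, fun _ => this.1⟩ h.2.2
  · exact h1
  · have := h.2.1 b' h'.1.le h1
    exact absurd ⟨fun _ => this.2, fun _ => this.1⟩ h'.2.2

lemma mem_chG : (x, y) ∈ chG Q ↔ ∃ b, RSeg Q x y b := by
  classical
  unfold chG
  rw [mem_filter]
  constructor
  · rintro ⟨-, -, b, h⟩
    exact ⟨b, h⟩
  · rintro ⟨b, h⟩
    exact ⟨h.here.1, h.here.2, b, h⟩

/-- the chords are inside -/
lemma chG_in {c : Cell} (h : c ∈ chG Q) : c ∈ Q ∧ (c.1, c.2 - 1) ∈ Q := by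
  obtain ⟨b, hb⟩ := mem_chG.1 (show (c.1, c.2) ∈ chG Q from h)
  exact hb.here

lemma chG_left (h : (x, y) ∈ chG Q) (h' : (x - 1, y) ∉ chG Q) :
    ¬ ((x - 1, y) ∈ Q ∧ (x - 1, y - 1) ∈ Q) := by
  rintro ⟨h1, h2⟩
  obtain ⟨b, hb⟩ := mem_chG.1 h
  exact h' (mem_chG.2 ⟨b, hb.ext h1 h2⟩)

/-- right ends are reflex corners -/
lemma chG_right (h : (x, y) ∈ chG Q) (h' : (x + 1, y) ∉ chG Q) :
    ¬ ((x + 1, y) ∈ Q ↔ (x + 1, y - 1) ∈ Q) := by
  obtain ⟨b, hb⟩ := mem_chG.1 h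
  have h1 : b = x + 1 := by
    by_contra hne
    have h2 : x + 1 < b := by have := hb.1; omega
    exact h' (mem_chG.2 ⟨b, hb.mono (by omega) h2⟩)
  rw [← h1]
  exact hb.2.2

/-- **left ends of the chords of a generic polyomino are inside flat vertical walls** -/
lemma chG_left_gen (hQ : Gen Q) (h : (x, y) ∈ chG Q) (h' : (x - 1, y) ∉ chG Q) :
    (x - 1, y) ∉ Q ∧ (x - 1, y - 1) ∉ Q := by
  have h0 := chG_left h h'
  obtain ⟨b, hb⟩ := mem_chG.1 h
  rcases hQ x b y hb.1 hb.2.1 with h1 | h1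
  · exact ⟨fun h2 => h0 ⟨h2, h1.1 h2⟩, fun h2 => h0 ⟨h1.2 h2, h2⟩⟩
  · exact absurd h1 hb.2.2

/-- every reflex corner on a right side has its chord -/
lemma chG_corner (h1 : (b - 1, y) ∈ Q) (h2 : (b - 1, y - 1) ∈ Q)
    (h3 : ¬ ((b, y) ∈ Q ↔ (b, y - 1) ∈ Q)) : (b - 1, y) ∈ chG Q :=
  mem_chG.2 ⟨b, by omega, fun u h4 h5 => by
    have : u = b - 1 := by omega
    rw [this]; exact ⟨h1, h2⟩, h3⟩

lemma lt_gb {c : Cell} (h : c ∈ Q) : c.1 < gb Q := by
  have h1 : |c.1| ≤ ∑ d ∈ Q, |d.1| := single_le_sum (f := fun d : Cell => |d.1|) (fun _ _ => abs_nonneg _) h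
  have h2 := le_abs_self c.1
  unfold gb
  omega

lemma chG_lt (Q : Finset Cell) : ∀ c ∈ chG Q, c.1 < gb Q := fun _ h => lt_gb (chG_in h).1

/-- the chords satisfy 98's conditions -/
lemma chG_ChG (S : Shape) : ChG S (chG S.P.Q) := by
  refine ⟨fun c hc => chG_in hc, fun i y h h' => ?_, fun i y h h' => ?_⟩
  · have := chG_left h h'
    by_contra hc
    push Not at hc
    exact this hc
  · have := chG_right h h'
    by_contra hc
    push Not at hc
    exact this ⟨fun _ => hc.2, fun _ => hc.1⟩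

end

/-- **Output of W-E from the one-arm bounds and the localised four-arm bound.** -/
theorem stNP_of {C0 : ℕ} {C c : ℝ} (hc : 0 < c) (hRS : RS C0 C c) (hL : LocB) : StNP := by
  intro S _
  exact ⟨gb S.P.Q, chG_lt _, endSt hRS hc S _ _ _ (chG_ChG S),
    nearSt_of_locB hL S _ _ _ fun c hc => chG_in hc⟩

end Pool.Agent.H10.W
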